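import Pool.Agent.Q16.CII.Ring

/-!
# No common inner inverse
-/

namespace Pool.Agent.Q16.CII

open Filter

variable {F K : Type*} [Field F] [Field K] [Algebra F K]

/-- Span of `x ^ i`, `i < k`. -/
def P (F : Type*) {K : Type*} [Field F] [Field K] [Algebra F K] (x : K) (k : ℕ) :
    Submodule F K := Submodule.span F {y | ∃ i < k, y = x ^ i}

/-- Span of `x ^ (i + 1)`, `i < k`. -/
def Q (F : Type*) {K : Type*} [Field F] [Field K] [Algebra F K] (x : K) (k : ℕ) :
    Submodule F K := Submodule.span F {y | ∃ i < k, y = x ^ (i + 1)}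

lemma pow_mem_P (x : K) {i k : ℕ} (h : i < k) : x ^ i ∈ P F x k :=
  Submodule.subset_span ⟨i, h, rfl⟩

lemma one_mem_P (x : K) (k : ℕ) : (1 : K) ∈ P F x (k + 1) := by
  simpa using pow_mem_P (F := F) x (Nat.succ_pos k)

lemma P_mono (x : K) {j k : ℕ} (h : j ≤ k) : P F x j ≤ P F x k := by
  apply Submodule.span_mono
  rintro _ ⟨i, hi, rfl⟩
  exact ⟨i, by omega, rfl⟩

lemma P_zero (x : K) {z : K} (h : z ∈ P F x 0) : z = 0 := by
  have : {y : K | ∃ i < 0, y = x ^ i} = ∅ := by ext; simp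
  rw [P, this, Submodule.span_empty] at h
  simpa using h

lemma Q_le_P (x : K) (k : ℕ) : Q F x k ≤ P F x (k + 1) := by
  apply Submodule.span_mono
  rintro _ ⟨i, hi, rfl⟩
  exact ⟨i + 1, by omega, rfl⟩

lemma mul_P (x : K) (k : ℕ) {z : K} (hz : z ∈ P F x k) : x * z ∈ Q F x k := by
  induction hz using Submodule.span_induction with
  | mem y hy => obtain ⟨i, hi, rfl⟩ := hy; exact Submodule.subset_span ⟨i, hi, by ring⟩
  | zero => rw [mul_zero]; exact Submodule.zero_mem _
  | add a b _ _ ha hb => rw [mul_add]; exact Submodule.add_mem _ ha hb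
  | smul c a _ ha => rw [mul_smul_comm]; exact Submodule.smul_mem _ _ ha

lemma mul_Q (x : K) (k : ℕ) {z : K} (hz : z ∈ Q F x k) : x * z ∈ Q F x (k + 1) := by
  induction hz using Submodule.span_induction with
  | mem y hy =>
    obtain ⟨i, hi, rfl⟩ := hy; exact Submodule.subset_span ⟨i + 1, by omega, by ring⟩
  | zero => rw [mul_zero]; exact Submodule.zero_mem _
  | add a b _ _ ha hb => rw [mul_add]; exact Submodule.add_mem _ ha hb
  | smul c a _ ha => rw [mul_smul_comm]; exact Submodule.smul_mem _ _ ha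

lemma vanish_P {x : K} {f : K →ₗ[F] F} {k : ℕ} (hf : ∀ i < k, f (x ^ i) = 0) {z : K}
    (hz : z ∈ P F x k) : f z = 0 := by
  induction hz using Submodule.span_induction with
  | mem y hy => obtain ⟨i, hi, rfl⟩ := hy; exact hf i hi
  | zero => exact map_zero _
  | add a b _ _ ha hb => rw [map_add, ha, hb, add_zero]
  | smul c a _ ha => rw [map_smul, ha, smul_zero]

lemma vanish_Q {x : K} {f : K →ₗ[F] F} {k : ℕ} (hf : ∀ i < k, f (x ^ (i + 1)) = 0) {z : K}
    (hz : z ∈ Q F x k) : f z = 0 := by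
  induction hz using Submodule.span_induction with
  | mem y hy => obtain ⟨i, hi, rfl⟩ := hy; exact hf i hi
  | zero => exact map_zero _
  | add a b _ _ ha hb => rw [map_add, ha, hb, add_zero]
  | smul c a _ ha => rw [map_smul, ha, smul_zero]

lemma vanish_T {Φ f : K →ₗ[F] F} {l : List (K × K)} (h : ∀ p ∈ l, f p.1 = 0) (z : K) :
    f (T Φ l z) = 0 := by
  induction l with
  | nil => simp
  | cons p l ih =>
    rw [T_cons, LinearMap.add_apply, map_add, ih (fun q hq => h q (List.mem_cons_of_mem _ hq)),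
      ro_apply, map_smul, h p List.mem_cons_self]
    simp

/-- The element `h` with `Φ ∘ T = Φ (h ·)`. -/
def hh (Φ : K →ₗ[F] F) (l : List (K × K)) : K := (l.map fun p => Φ p.1 • p.2).sum

lemma Φ_T (Φ : K →ₗ[F] F) (l : List (K × K)) (z : K) : Φ (T Φ l z) = Φ (hh Φ l * z) := by
  induction l with
  | nil => simp [hh]
  | cons p l ih =>
    rw [T_cons, LinearMap.add_apply, map_add, ih, ro_apply, map_smul]
    simp only [hh, List.map_cons, List.sum_cons, add_mul, smul_mul_assoc, map_add, map_smul,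
      smul_eq_mul]
    ring

lemma vanish_hh {Φ f : K →ₗ[F] F} {l : List (K × K)} {c : K} (h : ∀ p ∈ l, f (p.2 * c) = 0) :
    f (hh Φ l * c) = 0 := by
  induction l with
  | nil => simp [hh]
  | cons p l ih =>
    have := ih (fun q hq => h q (List.mem_cons_of_mem _ hq))
    simp only [hh, List.map_cons, List.sum_cons, add_mul, smul_mul_assoc, map_add, map_smul] at *
    rw [this, h p List.mem_cons_self]; simp

lemma T_mem_span (Φ : K →ₗ[F] F) (l : List (K × K)) (z : K) :
    T Φ l z ∈ Submodule.span F {v | ∃ p ∈ l, v = p.1} := by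
  induction l with
  | nil => simp
  | cons p l ih =>
    rw [T_cons, LinearMap.add_apply, ro_apply]
    refine Submodule.add_mem _ (Submodule.smul_mem _ _ (Submodule.subset_span
      ⟨p, List.mem_cons_self, rfl⟩)) (Submodule.span_mono ?_ ih)
    rintro _ ⟨q, hq, rfl⟩
    exact ⟨q, List.mem_cons_of_mem _ hq, rfl⟩

/-- The main computation: the symbol must be `x`. -/
lemma symbol_eq {ψ : ℕ → K →ₗ[F] F} {x : K} (hx : x ≠ 0)
    (hψ : ∀ i j, ψ j (x ^ i) = if i = j then 1 else 0) (hev : ∀ f, ∀ᶠ n in atTop, ψ n f = 0)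
    {Φ : K →ₗ[F] F} {A : Module.End F K}
    (hA : ∀ f, A f = x⁻¹ * (f - Φ f • (1 : K))) {r : K} {l : List (K × K)}
    {W : Module.End F K} (hW : W = L r + T Φ l) (hAWA : A * W * A = A) : r = x := by
  by_contra hr
  have hρ : r * x⁻¹ - 1 ≠ 0 := by
    intro h
    apply hr
    field_simp at h
    linear_combination h
  obtain ⟨ρ, hρd⟩ : ∃ ρ, ρ = r * x⁻¹ - 1 := ⟨_, rfl⟩
  rw [← hρd] at hρ
  have h1 : ∀ᶠ n in atTop, ∀ p ∈ l, ψ n (ρ⁻¹ * p.1) = 0 := by
    rw [show (∀ᶠ n in atTop, ∀ p ∈ l, ψ n (ρ⁻¹ * p.1) = 0) ↔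
      (∀ᶠ n in atTop, ∀ p ∈ {p | p ∈ l}, ψ n (ρ⁻¹ * p.1) = 0) from Iff.rfl,
      Filter.eventually_all_finite (List.finite_toSet l)]
    intro p _
    exact hev _
  obtain ⟨N, hN1, hN2, hN3⟩ := (h1.and ((hev ρ⁻¹).and (hev (ρ⁻¹ * (r * x⁻¹))))).exists
  obtain ⟨y, hy⟩ : ∃ y, y = x ^ N := ⟨_, rfl⟩
  have e1 : A (W (A y) - y) = 0 := by
    rw [map_sub, sub_eq_zero]
    exact congrArg (fun B : Module.End F K => B y) hAWA
  rw [hA] at e1
  obtain ⟨μ, hμ⟩ : ∃ μ, μ = Φ (W (A y) - y) := ⟨_, rfl⟩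
  rw [← hμ] at e1
  have e2 : W (A y) - y = μ • (1 : K) := by
    rcases mul_eq_zero.mp e1 with h | h
    · exact absurd (inv_eq_zero.mp h) hx
    · exact sub_eq_zero.mp h
  rw [hW, LinearMap.add_apply, L_apply] at e2
  obtain ⟨t, ht⟩ : ∃ t, t = T Φ l (A y) := ⟨_, rfl⟩
  rw [← ht, hA] at e2
  have e3 : y = μ • ρ⁻¹ + (Φ y) • (ρ⁻¹ * (r * x⁻¹)) - ρ⁻¹ * t := by
    have : ρ * y = μ • (1 : K) + (Φ y) • (r * x⁻¹) - t := by
      simp only [Algebra.smul_def] at e2 ⊢
      linear_combination e2 + y * hρd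
    calc y = ρ⁻¹ * (ρ * y) := by rw [← mul_assoc, inv_mul_cancel₀ hρ, one_mul]
      _ = ρ⁻¹ * (μ • (1 : K) + (Φ y) • (r * x⁻¹) - t) := by rw [this]
      _ = _ := by simp only [Algebra.smul_def]; ring
  have e4 : ψ N (ρ⁻¹ * t) = 0 := by
    have ht' := T_mem_span Φ l (A y)
    rw [← ht] at ht'
    clear ht e2 e3
    induction ht' using Submodule.span_induction with
    | mem v hv => obtain ⟨p, hp, rfl⟩ := hv; exact hN1 p hp
    | zero => simp
    | add a b _ _ ha hb => rw [mul_add, map_add, ha, hb, add_zero]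
    | smul c a _ ha => rw [mul_smul_comm, map_smul, ha, smul_zero]
  have e5 : ψ N y = 0 := by
    rw [e3, map_sub, map_add, map_smul, map_smul, hN2, hN3, e4]; simp
  rw [hy, hψ] at e5
  simp at e5

/-- The contradiction at a fixed level `m`. -/
theorem core {ψ : ℕ → K →ₗ[F] F} {x : K} (hx : x ≠ 0)
    (hψ : ∀ i j, ψ j (x ^ i) = if i = j then 1 else 0) (hev : ∀ f, ∀ᶠ n in atTop, ψ n f = 0)
    {m : ℕ} (hm : 1 ≤ m) {Φ : K →ₗ[F] F} (hΦ : Φ = ψ 0 + ψ m) {A : Module.End F K}
    (hA : ∀ f, A f = x⁻¹ * (f - Φ f • (1 : K))) {r : K} {l : List (K × K)}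
    {W : Module.End F K} (hW : W = L r + T Φ l)
    (hl : ∀ p ∈ l, ψ m p.1 = 0 ∧ ψ m (p.2 * x⁻¹) = 0)
    (hAWA : A * W * A = A) (hk : A ^ (m + 1) * W ^ (m + 1) * A ^ (m + 1) = A ^ (m + 1)) :
    False := by
  have hr := symbol_eq hx hψ hev hA hW hAWA
  subst hr
  -- values
  have hm0 : m ≠ 0 := by omega
  have hΦ1 : Φ 1 = 1 := by
    rw [hΦ, LinearMap.add_apply, ← pow_zero r, hψ, hψ]
    simp [hm0.symm]
  have hΦi : ∀ i, 1 ≤ i → i < m → Φ (r ^ i) = 0 := by
    intro i h1 h2
    rw [hΦ, LinearMap.add_apply, hψ, hψ]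
    simp [show i ≠ 0 by omega, show i ≠ m by omega]
  -- the functional `lam`
  obtain ⟨g, hg⟩ : ∃ g, g = hh Φ l * r⁻¹ - (Φ (hh Φ l * r⁻¹)) • (1 : K) - 1 := ⟨_, rfl⟩
  have hWA : ∀ y, W (A y) = y + Φ (g * y) • (1 : K) := by
    intro y
    have e1 : A (W (A y) - y) = 0 := by
      rw [map_sub, sub_eq_zero]
      exact congrArg (fun B : Module.End F K => B y) hAWA
    rw [hA] at e1
    have e2 : W (A y) - y = Φ (W (A y) - y) • (1 : K) := by
      rcases mul_eq_zero.mp e1 with h | h
      · exact absurd (inv_eq_zero.mp h) hx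
      · exact sub_eq_zero.mp h
    have e3 : W (A y) - y = T Φ l (A y) - Φ y • (1 : K) := by
      rw [hW, LinearMap.add_apply, L_apply]
      nth_rewrite 1 [hA]
      rw [← mul_assoc, mul_inv_cancel₀ hx]; ring
    have e4 : Φ (W (A y) - y) = Φ (g * y) := by
      rw [e3, map_sub, Φ_T, map_smul, hΦ1, hA, hg]
      have : hh Φ l * (r⁻¹ * (y - Φ y • (1 : K))) =
          hh Φ l * r⁻¹ * y - Φ y • (hh Φ l * r⁻¹) := by
        simp only [Algebra.smul_def]; ring
      rw [this, sub_mul, sub_mul, map_sub, map_sub, map_sub, smul_mul_assoc, map_smul, map_smul,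
        one_mul]
      simp only [smul_eq_mul]; ring
    rw [← e4, ← e2]; ring
  -- `A` and the spaces `P`
  have hA1 : A 1 = 0 := by rw [hA, hΦ1]; simp
  have hAP : ∀ k, k < m → ∀ z ∈ P F r (k + 1), A z ∈ P F r k := by
    intro k hkm z hz
    induction hz using Submodule.span_induction with
    | mem y hy =>
      obtain ⟨i, hi, rfl⟩ := hy
      rcases Nat.eq_zero_or_pos i with rfl | hi0
      · rw [pow_zero, hA1]; exact Submodule.zero_mem _
      · obtain ⟨j, rfl⟩ : ∃ j, i = j + 1 := ⟨i - 1, by omega⟩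
        rw [hA, hΦi (j + 1) (by omega) (by omega), zero_smul, sub_zero, pow_succ',
          ← mul_assoc, inv_mul_cancel₀ hx, one_mul]
        exact pow_mem_P r (by omega)
    | zero => rw [map_zero]; exact Submodule.zero_mem _
    | add a b _ _ ha hb => rw [map_add]; exact Submodule.add_mem _ ha hb
    | smul c a _ ha => rw [map_smul]; exact Submodule.smul_mem _ _ ha
  have hApow : ∀ k, k ≤ m → ∀ z ∈ P F r k, (A ^ k) z = 0 := by
    intro k
    induction k with
    | zero => intro _ z hz; rw [P_zero r hz]; simp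
    | succ k ih =>
      intro hkm z hz
      rw [pow_succ, Module.End.mul_apply]
      exact ih (by omega) _ (hAP k (by omega) z hz)
  have hz_eq : ∀ z, z = Φ z • (1 : K) + r * A z := by
    intro z
    rw [hA, ← mul_assoc, mul_inv_cancel₀ hx]; ring
  have hAinv : ∀ k, ∀ z, (A ^ k) z = 0 → z ∈ P F r k := by
    intro k
    induction k with
    | zero =>
      intro z hz
      have : z = 0 := by simpa using hz
      rw [this]; exact Submodule.zero_mem _
    | succ k ih =>
      intro z hz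
      rw [pow_succ, Module.End.mul_apply] at hz
      have h1 := ih _ hz
      rw [hz_eq z]
      exact Submodule.add_mem _ (Submodule.smul_mem _ _ (one_mem_P r k))
        (Q_le_P r k (mul_P r k h1))
  -- `W` and the spaces `P`
  have hWi : ∀ i, i + 1 < m → W (r ^ i) ∈ P F r (i + 2) ∧
      W (r ^ i) - r ^ (i + 1) ∈ P F r 1 := by
    intro i hi
    have : A (r ^ (i + 1)) = r ^ i := by
      rw [hA, hΦi (i + 1) (by omega) hi, zero_smul, sub_zero, pow_succ', ← mul_assoc,
        inv_mul_cancel₀ hx, one_mul]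
    have h2 := hWA (r ^ (i + 1))
    rw [this] at h2
    rw [h2]
    refine ⟨Submodule.add_mem _ (pow_mem_P r (by omega)) (Submodule.smul_mem _ _
      (one_mem_P r (i + 1))), ?_⟩
    rw [add_sub_cancel_left]
    exact Submodule.smul_mem _ _ (one_mem_P r 0)
  have hWP : ∀ k, k < m → ∀ z ∈ P F r k, W z ∈ P F r (k + 1) := by
    intro k hkm z hz
    induction hz using Submodule.span_induction with
    | mem y hy =>
      obtain ⟨i, hi, rfl⟩ := hy
      exact P_mono r (by omega) (hWi i (by omega)).1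
    | zero => rw [map_zero]; exact Submodule.zero_mem _
    | add a b _ _ ha hb => rw [map_add]; exact Submodule.add_mem _ ha hb
    | smul c a _ ha => rw [map_smul]; exact Submodule.smul_mem _ _ ha
  have hWj : ∀ j, j < m → (W ^ j) 1 - r ^ j ∈ P F r j := by
    intro j
    induction j with
    | zero => intro _; simp
    | succ j ih =>
      intro hj
      have h1 := ih (by omega)
      have h2 := hWP j (by omega) _ h1
      have h3 := (hWi j hj).2
      rw [pow_succ', Module.End.mul_apply]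
      have : W ((W ^ j) 1) - r ^ (j + 1) =
          W ((W ^ j) 1 - r ^ j) + (W (r ^ j) - r ^ (j + 1)) := by
        rw [map_sub]; ring
      rw [this]
      exact Submodule.add_mem _ h2 (P_mono r (by omega) h3)
  have hψP : ∀ z ∈ P F r m, ψ m z = 0 := fun z hz =>
    vanish_P (fun i hi => by rw [hψ]; simp [show i ≠ m by omega]) hz
  have hψW : ψ m ((W ^ m) 1) = 1 := by
    obtain ⟨j, rfl⟩ : ∃ j, m = j + 1 := ⟨m - 1, by omega⟩
    have h1 := hWj j (by omega)
    rw [pow_succ', Module.End.mul_apply]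
    have h2 : (W ^ j) 1 = r ^ j + ((W ^ j) 1 - r ^ j) := by ring
    have h3 : W (r ^ j) = r ^ (j + 1) + T Φ l (r ^ j) := by
      rw [hW, LinearMap.add_apply, L_apply, pow_succ']
    rw [h2, map_add, map_add, h3, map_add, hψ, vanish_T (fun p hp => (hl p hp).1),
      hψP _ (hWP j (by omega) _ h1)]
    simp
  have hne : (A ^ (m + 1)) ((W ^ m) 1) ≠ 0 := by
    intro h0
    obtain ⟨f, hf⟩ : ∃ f, f = (W ^ m) 1 := ⟨_, rfl⟩
    rw [← hf] at h0 hψW
    rw [pow_succ, Module.End.mul_apply] at h0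
    have h1 := hAinv m _ h0
    have h2 := mul_P r m h1
    have h3 : Φ (r * A f) = 0 := by
      have : r * A f = f - Φ f • (1 : K) := by
        rw [hA, ← mul_assoc, mul_inv_cancel₀ hx, one_mul]
      rw [this, map_sub, map_smul, hΦ1]; simp
    have h4 : ψ 0 (r * A f) = 0 :=
      vanish_Q (fun i hi => by rw [hψ]; simp) h2
    have h5 : ψ m (r * A f) = 0 := by
      rw [hΦ, LinearMap.add_apply, h4, zero_add] at h3
      exact h3
    have h6 : ψ m f = 0 := by
      rw [hz_eq f, map_add, h5, map_smul, ← pow_zero r, hψ]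
      simp [hm0.symm]
    rw [hψW] at h6
    exact one_ne_zero h6
  -- the power relation
  have hpow : ∀ k y, (W ^ k) ((A ^ k) y) = y + ∑ j ∈ Finset.range k,
      Φ (g * (A ^ j) y) • (W ^ j) 1 := by
    intro k
    induction k with
    | zero => intro y; simp
    | succ k ih =>
      intro y
      rw [pow_succ W, pow_succ' A, Module.End.mul_apply, Module.End.mul_apply, hWA, map_add,
        ih y, map_smul, Finset.sum_range_succ, add_assoc]
  have hlam : ∀ y, Φ (g * (A ^ m) y) = 0 := by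
    intro y
    have h1 : (A ^ (m + 1)) ((W ^ (m + 1)) ((A ^ (m + 1)) y)) = (A ^ (m + 1)) y :=
      congrArg (fun B : Module.End F K => B y) hk
    rw [hpow, map_add, map_sum, Finset.sum_range_succ] at h1
    have h2 : ∑ j ∈ Finset.range m, (A ^ (m + 1)) (Φ (g * (A ^ j) y) • (W ^ j) 1) = 0 := by
      apply Finset.sum_eq_zero
      intro j hj
      have hj' := Finset.mem_range.mp hj
      have h3 : (W ^ j) 1 ∈ P F r m := by
        have h4 : (W ^ j) 1 = r ^ j + ((W ^ j) 1 - r ^ j) := by ring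
        rw [h4]
        exact Submodule.add_mem _ (pow_mem_P r hj') (P_mono r hj'.le (hWj j hj'))
      rw [map_smul, pow_succ', Module.End.mul_apply, hApow m le_rfl _ h3, map_zero, smul_zero]
    rw [h2, zero_add, map_smul] at h1
    have h5 : Φ (g * (A ^ m) y) • (A ^ (m + 1)) ((W ^ m) 1) = 0 := by
      simpa using h1
    rcases smul_eq_zero.mp h5 with h | h
    · exact h
    · exact absurd h hne
  -- the adjoint of `A`
  obtain ⟨B, hB⟩ : ∃ B : Module.End F K, ∀ f, B f = r⁻¹ * f - Φ (r⁻¹ * f) • (1 : K) :=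
    ⟨LinearMap.mulLeft F r⁻¹ - (LinearMap.toSpanSingleton F K 1) ∘ₗ Φ ∘ₗ LinearMap.mulLeft F r⁻¹,
      fun f => rfl⟩
  have hadj : ∀ z y, Φ (z * A y) = Φ (B z * y) := by
    intro z y
    have e1 : z * A y = r⁻¹ * z * y - Φ y • (r⁻¹ * z) := by
      rw [hA]; simp only [Algebra.smul_def]; ring
    have e2 : B z * y = r⁻¹ * z * y - Φ (r⁻¹ * z) • y := by
      rw [hB]; simp only [Algebra.smul_def]; ring
    rw [e1, e2, map_sub, map_sub, map_smul, map_smul]
    simp only [smul_eq_mul]; ring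
  have hadjk : ∀ k z y, Φ (z * (A ^ k) y) = Φ ((B ^ k) z * y) := by
    intro k
    induction k with
    | zero => intro z y; simp
    | succ k ih =>
      intro z y
      rw [pow_succ' A, Module.End.mul_apply, hadj, ih, pow_succ B, Module.End.mul_apply]
  have hBg : (B ^ m) g = 0 := by
    by_contra hne0
    have h1 := hlam ((B ^ m) g)⁻¹
    rw [hadjk, mul_inv_cancel₀ hne0, hΦ1] at h1
    exact one_ne_zero h1
  have hBinv : ∀ k, ∀ z, (B ^ k) z = 0 → z ∈ Q F r k := by
    intro k
    induction k with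
    | zero =>
      intro z hz
      have : z = 0 := by simpa using hz
      rw [this]; exact Submodule.zero_mem _
    | succ k ih =>
      intro z hz
      rw [pow_succ, Module.End.mul_apply] at hz
      have h1 := ih _ hz
      have h2 : z = r * B z + Φ (r⁻¹ * z) • r := by
        rw [hB, mul_sub, ← mul_assoc, mul_inv_cancel₀ hx]
        simp only [Algebra.smul_def]; ring
      rw [h2]
      refine Submodule.add_mem _ (mul_Q r k h1) (Submodule.smul_mem _ _ ?_)
      exact Submodule.subset_span ⟨0, by omega, by simp⟩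
  have hg0 : ψ 0 g = 0 := vanish_Q (fun i hi => by rw [hψ]; simp) (hBinv m g hBg)
  have hg1 : ψ 0 g = -1 := by
    have e1 : ψ m (hh Φ l * r⁻¹) = 0 := vanish_hh (fun p hp => (hl p hp).2)
    have e2 : ψ 0 (1 : K) = 1 := by rw [← pow_zero r, hψ]; simp
    rw [hg, map_sub, map_sub, map_smul, e2, hΦ, LinearMap.add_apply]
    rw [hΦ] at e1
    rw [e1]
    simp
  rw [hg0] at hg1
  have : (1 : F) = 0 := by linear_combination hg1
  exact one_ne_zero this

end Pool.Agent.Q16.CII
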