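import Pool.Agent.Q16.CII.Unif

/-!
# Unit-regularity of matrices and of the operators `L r + T (Φ n) l`
-/

namespace Pool.Agent.Q16.CII

open Filter Matrix

lemma matrix_unit_regular {F : Type*} [Field F] {m : ℕ} (A : Matrix (Fin m) (Fin m) F) :
    ∃ U U' : Matrix (Fin m) (Fin m) F, A * U * A = A ∧ U * U' = 1 ∧ U' * U = 1 := by
  classical
  obtain ⟨L, L', D, hD⟩ :=
    Matrix.Pivot.exists_list_transvec_mul_mul_list_transvec_eq_diagonal A
  obtain ⟨P, hP⟩ : ∃ P, P = (L.map TransvectionStruct.toMatrix).prod := ⟨_, rfl⟩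
  obtain ⟨Q, hQ⟩ : ∃ Q, Q = (L'.map TransvectionStruct.toMatrix).prod := ⟨_, rfl⟩
  have hPu : IsUnit P := by
    rw [Matrix.isUnit_iff_isUnit_det, hP, TransvectionStruct.det_toMatrix_prod]
    exact isUnit_one
  have hQu : IsUnit Q := by
    rw [Matrix.isUnit_iff_isUnit_det, hQ, TransvectionStruct.det_toMatrix_prod]
    exact isUnit_one
  rw [← hP, ← hQ] at hD
  obtain ⟨P, rfl⟩ := hPu
  obtain ⟨Q, rfl⟩ := hQu
  have hA : A = (↑P⁻¹ : Matrix (Fin m) (Fin m) F) * diagonal D *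
      (↑Q⁻¹ : Matrix (Fin m) (Fin m) F) := by
    rw [← hD]; simp [mul_assoc]
  obtain ⟨E, E', hE, h1, h2⟩ : ∃ E E' : Matrix (Fin m) (Fin m) F,
      diagonal D * E * diagonal D = diagonal D ∧ E * E' = 1 ∧ E' * E = 1 := by
    refine ⟨diagonal (fun i => if D i = 0 then 1 else (D i)⁻¹),
      diagonal (fun i => if D i = 0 then 1 else (D i)), ?_, ?_, ?_⟩
    · rw [diagonal_mul_diagonal, diagonal_mul_diagonal]
      congr 1; ext i
      split_ifs with h
      · rw [h]; simp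
      · field_simp
    · rw [diagonal_mul_diagonal, ← diagonal_one]
      congr 1; ext i; split_ifs with h
      · simp
      · field_simp
    · rw [diagonal_mul_diagonal, ← diagonal_one]
      congr 1; ext i; split_ifs with h
      · simp
      · field_simp
  refine ⟨Q * E * P, (↑P⁻¹ : Matrix (Fin m) (Fin m) F) * E' *
      (↑Q⁻¹ : Matrix (Fin m) (Fin m) F), ?_, ?_, ?_⟩
  · calc A * (Q * E * P) * A
        = (↑P⁻¹ : Matrix (Fin m) (Fin m) F) * (diagonal D * E * diagonal D) *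
          (↑Q⁻¹ : Matrix (Fin m) (Fin m) F) := by
          conv_lhs => rw [hA]
          simp [mul_assoc]
      _ = A := by rw [hE, ← hA]
  · calc _ = (Q : Matrix (Fin m) (Fin m) F) * (E * E') *
        (↑Q⁻¹ : Matrix (Fin m) (Fin m) F) := by
          simp [mul_assoc]
      _ = 1 := by rw [h1]; simp
  · calc _ = (↑P⁻¹ : Matrix (Fin m) (Fin m) F) * (E' * E) * (P : Matrix (Fin m) (Fin m) F) := by
          simp [mul_assoc]
      _ = 1 := by rw [h2]; simp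

variable {F K : Type*} [Field F] [Field K] [Algebra F K]

/-- `1 + Θ (A - 1)`: a multiplicative map. -/
def Xi (ψ : K →ₗ[F] F) {m : ℕ} (w w' : Fin m → K) (A : Matrix (Fin m) (Fin m) F) :
    Module.End F K := 1 + Th ψ w w' (A - 1)

lemma Xi_one (ψ : K →ₗ[F] F) {m : ℕ} (w w' : Fin m → K) : Xi ψ w w' 1 = 1 := by
  simp [Xi, Th_zero]

lemma Xi_mul {ψ : K →ₗ[F] F} {m : ℕ} {w w' : Fin m → K} (h : Dual ψ w w')
    (A B : Matrix (Fin m) (Fin m) F) :
    Xi ψ w w' (A * B) = Xi ψ w w' A * Xi ψ w w' B := by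
  have : A * B - 1 = (A - 1) + (B - 1) + (A - 1) * (B - 1) := by noncomm_ring
  rw [Xi, this, Th_add, Th_add, Th_mul h, Xi, Xi]
  noncomm_ring

lemma Th_mul_Xi {ψ : K →ₗ[F] F} {m : ℕ} {w w' : Fin m → K} (h : Dual ψ w w')
    (A B : Matrix (Fin m) (Fin m) F) :
    Th ψ w w' (A * B) = Th ψ w w' A * Xi ψ w w' B := by
  have : A * B = A + A * (B - 1) := by noncomm_ring
  rw [this, Th_add, Th_mul h, Xi, mul_add, mul_one]

lemma Xi_eq {m : ℕ} (w w' : Fin m → K) (A : Matrix (Fin m) (Fin m) F) :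
    ∃ l : List (K × K), ∀ ψ : K →ₗ[F] F, Xi ψ w w' A = 1 + T ψ l := by
  obtain ⟨l, hl⟩ := Th_eq_T w w' (A - 1)
  exact ⟨l, fun ψ => by rw [Xi, hl]⟩

variable {Φ : ℕ → K →ₗ[F] F} {φ : K →ₗ[F] F} {x y : ℕ → Module.End F K}

lemma eventually_dual (hev : ∀ f, ∀ᶠ n in atTop, Φ n f = φ f) {m : ℕ} {w w' : Fin m → K}
    (h : Dual φ w w') : ∀ᶠ n in atTop, Dual (Φ n) w w' := by
  unfold Dual
  rw [Filter.eventually_all]
  intro j
  rw [Filter.eventually_all]
  intro k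
  filter_upwards [hev (w' j * w k)] with n hn
  rw [hn, h j k]

lemma unif (hev : ∀ f, ∀ᶠ n in atTop, Φ n f = φ f) (hφ : φ 1 = 1) (hx : Uni Φ x) :
    ∃ u u' : ℕ → Module.End F K, Uni Φ u ∧ Uni Φ u' ∧
      ∀ᶠ n in atTop, x n * u n * x n = x n ∧ u n * u' n = 1 ∧ u' n * u n = 1 := by
  obtain ⟨r, l, hl⟩ := hx
  by_cases hr : r = 0
  · obtain ⟨m, w, w', hd, hlm⟩ := exists_dual hφ l
    obtain ⟨X, hX⟩ := T_eq_Th w w' l hlm
    obtain ⟨U, U', h1, h2, h3⟩ := matrix_unit_regular X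
    obtain ⟨k, hk⟩ := Xi_eq (F := F) w w' U
    obtain ⟨k', hk'⟩ := Xi_eq (F := F) w w' U'
    refine ⟨fun n => Xi (Φ n) w w' U, fun n => Xi (Φ n) w w' U',
      ⟨1, k, Eventually.of_forall fun n => by simp only [hk, L_one]⟩,
      ⟨1, k', Eventually.of_forall fun n => by simp only [hk', L_one]⟩, ?_⟩
    filter_upwards [hl, eventually_dual hev hd] with n hn hdn
    refine ⟨?_, ?_, ?_⟩
    · rw [hn, hr, L_zero, zero_add, hX, ← Th_mul_Xi hdn, ← Th_mul hdn, h1]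
    · rw [← Xi_mul hdn, h2, Xi_one]
    · rw [← Xi_mul hdn, h3, Xi_one]
  · obtain ⟨l', hl'⟩ : ∃ l' : List (K × K), l' = l.map fun p => (r⁻¹ * p.1, p.2) := ⟨_, rfl⟩
    obtain ⟨m, w, w', hd, hlm⟩ := exists_dual hφ l'
    obtain ⟨X, hX⟩ := T_eq_Th w w' l' hlm
    obtain ⟨U, U', h1, h2, h3⟩ := matrix_unit_regular (1 + X)
    obtain ⟨k, hk⟩ := Xi_eq (F := F) w w' U
    obtain ⟨k', hk'⟩ := Xi_eq (F := F) w w' U'
    have hLL : (L r : Module.End F K) * L r⁻¹ = 1 := by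
      rw [← L_mul, mul_inv_cancel₀ hr, L_one]
    have hLL' : (L r⁻¹ : Module.End F K) * L r = 1 := by
      rw [← L_mul, inv_mul_cancel₀ hr, L_one]
    refine ⟨fun n => Xi (Φ n) w w' U * L r⁻¹, fun n => L r * Xi (Φ n) w w' U',
      ⟨r⁻¹, k.map fun p => (p.1, p.2 * r⁻¹), Eventually.of_forall fun n => by
        simp only [hk, add_mul, one_mul, T_mul_L]⟩,
      ⟨r, k'.map fun p => (r * p.1, p.2), Eventually.of_forall fun n => by
        simp only [hk', mul_add, mul_one, L_mul_T]⟩, ?_⟩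
    filter_upwards [hl, eventually_dual hev hd] with n hn hdn
    have hxn : x n = L r * Xi (Φ n) w w' (1 + X) := by
      rw [hn, Xi, add_sub_cancel_left, ← hX, hl', ← L_mul_T, mul_add, ← mul_assoc, hLL, mul_one,
        one_mul]
    refine ⟨?_, ?_, ?_⟩
    · calc x n * (Xi (Φ n) w w' U * L r⁻¹) * x n
          = L r * (Xi (Φ n) w w' (1 + X) * Xi (Φ n) w w' U * (L r⁻¹ * L r) *
            Xi (Φ n) w w' (1 + X)) := by rw [hxn]; noncomm_ring
        _ = x n := by rw [hLL', mul_one, ← Xi_mul hdn, ← Xi_mul hdn, h1, hxn]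
    · calc Xi (Φ n) w w' U * L r⁻¹ * (L r * Xi (Φ n) w w' U')
          = Xi (Φ n) w w' U * (L r⁻¹ * L r) * Xi (Φ n) w w' U' := by noncomm_ring
        _ = 1 := by rw [hLL', mul_one, ← Xi_mul hdn, h2, Xi_one]
    · calc L r * Xi (Φ n) w w' U' * (Xi (Φ n) w w' U * L r⁻¹)
          = L r * (Xi (Φ n) w w' U' * Xi (Φ n) w w' U) * L r⁻¹ := by noncomm_ring
        _ = 1 := by rw [← Xi_mul hdn, h3, Xi_one, mul_one, hLL]

end Pool.Agent.Q16.CII
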