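import Mathlib

/-!
# Operators multiplication plus finite rank attached to a functional

`F ⊆ K` fields, `ψ : K →ₗ[F] F`.  `ro ψ v g` is the operator `f ↦ ψ (g f) v`, `T ψ l` a finite sum
of these, `L r` multiplication by `r`.
-/

namespace Pool.Agent.Q16.CII

open Filter

variable {F K : Type*} [Field F] [Field K] [Algebra F K]

/-- Multiplication by `r`. -/
def L (r : K) : Module.End F K := LinearMap.mulLeft F r

@[simp] lemma L_apply (r f : K) : (L r : Module.End F K) f = r * f := rfl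

/-- The rank one operator `f ↦ ψ (g f) v`. -/
def ro (ψ : K →ₗ[F] F) (v g : K) : Module.End F K :=
  (LinearMap.toSpanSingleton F K v) ∘ₗ ψ ∘ₗ (LinearMap.mulLeft F g)

@[simp] lemma ro_apply (ψ : K →ₗ[F] F) (v g f : K) : ro ψ v g f = ψ (g * f) • v := rfl

/-- A finite sum of rank one operators. -/
def T (ψ : K →ₗ[F] F) (l : List (K × K)) : Module.End F K := (l.map fun p => ro ψ p.1 p.2).sum

@[simp] lemma T_nil (ψ : K →ₗ[F] F) : T ψ [] = 0 := rfl

@[simp] lemma T_cons (ψ : K →ₗ[F] F) (p : K × K) (l : List (K × K)) :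
    T ψ (p :: l) = ro ψ p.1 p.2 + T ψ l := by simp [T]

lemma T_append (ψ : K →ₗ[F] F) (l l' : List (K × K)) : T ψ (l ++ l') = T ψ l + T ψ l' := by
  simp [T]

lemma L_mul (r s : K) : (L (r * s) : Module.End F K) = L r * L s := by
  ext f; simp [Module.End.mul_apply, mul_assoc]

lemma L_add (r s : K) : (L (r + s) : Module.End F K) = L r + L s := by
  ext f; simp [add_mul]

lemma L_one : (L (1 : K) : Module.End F K) = 1 := by
  ext f; simp

lemma L_zero : (L (0 : K) : Module.End F K) = 0 := by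
  ext f; simp

lemma L_neg (r : K) : (L (-r) : Module.End F K) = - L r := by
  ext f; simp

lemma T_neg (ψ : K →ₗ[F] F) (l : List (K × K)) :
    T ψ (l.map fun p => (-p.1, p.2)) = - T ψ l := by
  induction l with
  | nil => simp
  | cons p l ih => rw [List.map_cons, T_cons, ih, T_cons]; ext f; simp; ring

lemma L_mul_T (ψ : K →ₗ[F] F) (r : K) (l : List (K × K)) :
    L r * T ψ l = T ψ (l.map fun p => (r * p.1, p.2)) := by
  induction l with
  | nil => simp
  | cons p l ih =>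
    simp only [List.map_cons, T_cons, mul_add, ih]; congr 1; ext f
    simp [Module.End.mul_apply]

lemma T_mul_L (ψ : K →ₗ[F] F) (r : K) (l : List (K × K)) :
    T ψ l * L r = T ψ (l.map fun p => (p.1, p.2 * r)) := by
  induction l with
  | nil => simp
  | cons p l ih =>
    simp only [List.map_cons, T_cons, add_mul, ih]; congr 1; ext f
    simp [Module.End.mul_apply, mul_assoc]

lemma ro_mul_ro (ψ : K →ₗ[F] F) (v g v' g' : K) :
    ro ψ v g * ro ψ v' g' = ro ψ (ψ (g * v') • v) g' := by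
  ext f
  simp only [Module.End.mul_apply, ro_apply, mul_smul_comm, map_smul, smul_eq_mul, smul_smul]

/-- `x` is eventually of the form `L r + T (Φ n) l`. -/
def Uni (Φ : ℕ → K →ₗ[F] F) (x : ℕ → Module.End F K) : Prop :=
  ∃ (r : K) (l : List (K × K)), ∀ᶠ n in atTop, x n = L r + T (Φ n) l

/-- `x` is eventually of the form `T (Φ n) l`. -/
def EvT (Φ : ℕ → K →ₗ[F] F) (x : ℕ → Module.End F K) : Prop :=
  ∃ (l : List (K × K)), ∀ᶠ n in atTop, x n = T (Φ n) l

variable {Φ : ℕ → K →ₗ[F] F} {φ : K →ₗ[F] F} {x y : ℕ → Module.End F K}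

lemma EvT.add (hx : EvT Φ x) (hy : EvT Φ y) : EvT Φ (fun n => x n + y n) := by
  obtain ⟨l, hl⟩ := hx
  obtain ⟨k, hk⟩ := hy
  refine ⟨l ++ k, ?_⟩
  filter_upwards [hl, hk] with n h1 h2
  rw [h1, h2, T_append]

lemma EvT.zero : EvT Φ (fun _ => (0 : Module.End F K)) := ⟨[], by simp⟩

lemma evT_ro_mul_T (hev : ∀ f, ∀ᶠ n in atTop, Φ n f = φ f) (p : K × K) (k : List (K × K)) :
    EvT Φ (fun n => ro (Φ n) p.1 p.2 * T (Φ n) k) := by
  induction k with
  | nil => simpa using EvT.zero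
  | cons q k ih =>
    have h1 : EvT Φ (fun n => ro (Φ n) p.1 p.2 * ro (Φ n) q.1 q.2) := by
      refine ⟨[(φ (p.2 * q.1) • p.1, q.2)], ?_⟩
      filter_upwards [hev (p.2 * q.1)] with n hn
      rw [ro_mul_ro, hn]; simp
    have := h1.add ih
    simpa [mul_add] using this

lemma evT_T_mul_T (hev : ∀ f, ∀ᶠ n in atTop, Φ n f = φ f) (l k : List (K × K)) :
    EvT Φ (fun n => T (Φ n) l * T (Φ n) k) := by
  induction l with
  | nil => simpa using EvT.zero
  | cons p l ih =>
    have := (evT_ro_mul_T hev p k).add ih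
    simpa [add_mul] using this

lemma Uni.add (hx : Uni Φ x) (hy : Uni Φ y) : Uni Φ (fun n => x n + y n) := by
  obtain ⟨r, l, hl⟩ := hx
  obtain ⟨s, k, hk⟩ := hy
  refine ⟨r + s, l ++ k, ?_⟩
  filter_upwards [hl, hk] with n h1 h2
  rw [h1, h2, T_append, L_add]; abel

lemma Uni.neg (hx : Uni Φ x) : Uni Φ (fun n => - x n) := by
  obtain ⟨r, l, hl⟩ := hx
  refine ⟨-r, l.map fun p => (-p.1, p.2), ?_⟩
  filter_upwards [hl] with n h1
  rw [h1, T_neg, L_neg]; abel

lemma Uni.zero : Uni Φ (fun _ => (0 : Module.End F K)) := ⟨0, [], by simp [L_zero]⟩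

lemma Uni.one : Uni Φ (fun _ => (1 : Module.End F K)) := ⟨1, [], by simp [L_one]⟩

lemma Uni.mul (hev : ∀ f, ∀ᶠ n in atTop, Φ n f = φ f) (hx : Uni Φ x) (hy : Uni Φ y) :
    Uni Φ (fun n => x n * y n) := by
  obtain ⟨r, l, hl⟩ := hx
  obtain ⟨s, k, hk⟩ := hy
  obtain ⟨j, hj⟩ := evT_T_mul_T hev l k
  refine ⟨r * s, (k.map fun p => (r * p.1, p.2)) ++ (l.map fun p => (p.1, p.2 * s)) ++ j, ?_⟩
  filter_upwards [hl, hk, hj] with n h1 h2 h3
  rw [h1, h2, T_append, T_append, L_mul, ← L_mul_T, ← T_mul_L, ← h3]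
  noncomm_ring

end Pool.Agent.Q16.CII
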