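import Pool.Agent.Q16.CII.Mat

/-!
# The unit-regular ring of eventually uniform sequences
-/

namespace Pool.Agent.Q16.CII

open Filter

variable {F K : Type*} [Field F] [Field K] [Algebra F K]

/-- Sequences of operators of the form `L r + T (Φ n) l`, with `r`, `l` eventually constant. -/
def RR (Φ : ℕ → K →ₗ[F] F) (φ : K →ₗ[F] F) (hev : ∀ f, ∀ᶠ n in atTop, Φ n f = φ f) :
    Subring (ℕ → Module.End F K) where
  carrier := {x | (∀ n, Uni (fun _ => Φ n) (fun _ => x n)) ∧ Uni Φ x}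
  mul_mem' := fun {x y} hx hy =>
    ⟨fun n => Uni.mul (φ := Φ n) (fun f => Eventually.of_forall fun _ => rfl) (hx.1 n) (hy.1 n),
      Uni.mul hev hx.2 hy.2⟩
  one_mem' := ⟨fun n => Uni.one, Uni.one⟩
  add_mem' := fun {x y} hx hy => ⟨fun n => Uni.add (hx.1 n) (hy.1 n), Uni.add hx.2 hy.2⟩
  zero_mem' := ⟨fun n => Uni.zero, Uni.zero⟩
  neg_mem' := fun {x} hx => ⟨fun n => Uni.neg (hx.1 n), Uni.neg hx.2⟩

variable {Φ : ℕ → K →ₗ[F] F} {φ : K →ₗ[F] F}

lemma mem_RR {hev : ∀ f, ∀ᶠ n in atTop, Φ n f = φ f} {x : ℕ → Module.End F K} :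
    x ∈ RR Φ φ hev ↔ (∀ n, Uni (fun _ => Φ n) (fun _ => x n)) ∧ Uni Φ x := Iff.rfl

theorem RR_unit_regular (hev : ∀ f, ∀ᶠ n in atTop, Φ n f = φ f) (hφ : φ 1 = 1)
    (hΦ : ∀ n, Φ n 1 = 1) (a : RR Φ φ hev) : ∃ u : (RR Φ φ hev)ˣ, a * u * a = a := by
  classical
  obtain ⟨x, hx1, hx2⟩ := a
  obtain ⟨u, u', ⟨r, l, hu⟩, ⟨r', l', hu'⟩, h⟩ := unif hev hφ hx2
  have hn : ∀ n, ∃ v v' : Module.End F K, Uni (fun _ => Φ n) (fun _ => v) ∧
      Uni (fun _ => Φ n) (fun _ => v') ∧ x n * v * x n = x n ∧ v * v' = 1 ∧ v' * v = 1 := by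
    intro n
    obtain ⟨v, v', ⟨s, k, hv⟩, ⟨s', k', hv'⟩, h⟩ :=
      unif (Φ := fun _ => Φ n) (φ := Φ n) (fun f => Eventually.of_forall fun _ => rfl) (hΦ n)
        (hx1 n)
    obtain ⟨N, hN1, hN2, hN3⟩ := (hv.and (hv'.and h)).exists
    exact ⟨v N, v' N, ⟨s, k, Eventually.of_forall fun _ => hN1⟩,
      ⟨s', k', Eventually.of_forall fun _ => hN2⟩, hN3⟩
  choose v v' hv hv' hvv using hn
  obtain ⟨N, hN⟩ := eventually_atTop.mp (hu.and (hu'.and h))
  have hge : ∀ᶠ n in atTop, N ≤ n := eventually_ge_atTop N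
  obtain ⟨w, hw⟩ : ∃ w : ℕ → Module.End F K, w = fun n => if N ≤ n then u n else v n := ⟨_, rfl⟩
  obtain ⟨w', hw'⟩ : ∃ w' : ℕ → Module.End F K, w' = fun n => if N ≤ n then u' n else v' n :=
    ⟨_, rfl⟩
  have hwm : w ∈ RR Φ φ hev := by
    rw [mem_RR]
    refine ⟨fun n => ?_, r, l, ?_⟩
    · rw [hw]
      by_cases hn : N ≤ n
      · simp only [hn, if_true]
        exact ⟨r, l, Eventually.of_forall fun _ => (hN n hn).1⟩
      · simp only [hn, if_false]
        exact hv n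
    · filter_upwards [hge, hu] with n hn hun
      rw [hw]; simp only [hn, if_true]; exact hun
  have hwm' : w' ∈ RR Φ φ hev := by
    rw [mem_RR]
    refine ⟨fun n => ?_, r', l', ?_⟩
    · rw [hw']
      by_cases hn : N ≤ n
      · simp only [hn, if_true]
        exact ⟨r', l', Eventually.of_forall fun _ => (hN n hn).2.1⟩
      · simp only [hn, if_false]
        exact hv' n
    · filter_upwards [hge, hu'] with n hn hun
      rw [hw']; simp only [hn, if_true]; exact hun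
  have key : ∀ n, x n * w n * x n = x n ∧ w n * w' n = 1 ∧ w' n * w n = 1 := by
    intro n
    rw [hw, hw']
    by_cases hn : N ≤ n
    · simp only [hn, if_true]
      exact (hN n hn).2.2
    · simp only [hn, if_false]
      exact hvv n
  refine ⟨⟨⟨w, hwm⟩, ⟨w', hwm'⟩, ?_, ?_⟩, ?_⟩
  · apply Subtype.ext
    funext n
    exact (key n).2.1
  · apply Subtype.ext
    funext n
    exact (key n).2.2
  · apply Subtype.ext
    funext n
    exact (key n).1

end Pool.Agent.Q16.CII
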