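import Pool.Agent.Q16.CII.Ops

/-!
# Unit-regularity, uniformly along a convergent sequence of functionals
-/

namespace Pool.Agent.Q16.CII

open Filter Matrix

variable {F K : Type*} [Field F] [Field K] [Algebra F K]

/-- Dual systems. -/
def Dual (φ : K →ₗ[F] F) {m : ℕ} (w w' : Fin m → K) : Prop :=
  ∀ j k, φ (w' j * w k) = if j = k then 1 else 0

lemma Dual.symm {φ : K →ₗ[F] F} {m : ℕ} {w w' : Fin m → K} (h : Dual φ w w') :
    Dual φ w' w := by
  intro j k
  rw [mul_comm, h k j]; simp [eq_comm]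

lemma Dual.extend {φ : K →ₗ[F] F} (hφ : φ 1 = 1) {m : ℕ} {w w' : Fin m → K}
    (h : Dual φ w w') (v : K) :
    ∃ (m' : ℕ) (W W' : Fin m' → K), Dual φ W W' ∧
      Submodule.span F (Set.range w) ≤ Submodule.span F (Set.range W) ∧
      Submodule.span F (Set.range w') ≤ Submodule.span F (Set.range W') ∧
      v ∈ Submodule.span F (Set.range W) := by
  classical
  obtain ⟨v0, hv0⟩ : ∃ v0, v0 = v - ∑ j, φ (w' j * v) • w j := ⟨_, rfl⟩
  have hv : v = v0 + ∑ j, φ (w' j * v) • w j := by rw [hv0]; ring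
  have hv0w : ∀ k, φ (w' k * v0) = 0 := by
    intro k
    rw [hv0, mul_sub, Finset.mul_sum, map_sub, map_sum]
    simp only [mul_smul_comm, map_smul, h k, smul_eq_mul]
    simp
  by_cases hz : v0 = 0
  · refine ⟨m, w, w', h, le_rfl, le_rfl, ?_⟩
    rw [hv, hz, zero_add]
    exact Submodule.sum_mem _ fun j _ => Submodule.smul_mem _ _ (Submodule.subset_span ⟨j, rfl⟩)
  · obtain ⟨h0, hh0⟩ : ∃ h0, h0 = v0⁻¹ - ∑ j, φ (v0⁻¹ * w j) • w' j := ⟨_, rfl⟩
    have h1 : ∀ k, φ (h0 * w k) = 0 := by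
      intro k
      rw [hh0, sub_mul, Finset.sum_mul, map_sub, map_sum]
      simp only [smul_mul_assoc, map_smul, h _ k, smul_eq_mul]
      simp
    have h2 : φ (h0 * v0) = 1 := by
      rw [hh0, sub_mul, Finset.sum_mul, map_sub, map_sum, inv_mul_cancel₀ hz, hφ]
      simp only [smul_mul_assoc, map_smul, hv0w, smul_eq_mul]
      simp
    have hs1 : Submodule.span F (Set.range w) ≤
        Submodule.span F (Set.range (Fin.cons v0 w : Fin (m+1) → K)) := by
      apply Submodule.span_mono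
      rintro _ ⟨j, rfl⟩
      exact ⟨j.succ, by simp⟩
    refine ⟨m + 1, Fin.cons v0 w, Fin.cons h0 w', ?_, hs1, ?_, ?_⟩
    · intro j k
      refine Fin.cases ?_ (fun j => ?_) j <;> refine Fin.cases ?_ (fun k => ?_) k
      · simpa using h2
      · simpa [(Fin.succ_ne_zero k).symm] using h1 k
      · simpa using hv0w j
      · simpa using h j k
    · apply Submodule.span_mono
      rintro _ ⟨j, rfl⟩
      exact ⟨j.succ, by simp⟩
    · rw [hv]
      refine Submodule.add_mem _ (Submodule.subset_span ⟨0, by simp⟩) (hs1 ?_)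
      exact Submodule.sum_mem _ fun j _ => Submodule.smul_mem _ _ (Submodule.subset_span ⟨j, rfl⟩)

lemma exists_dual {φ : K →ₗ[F] F} (hφ : φ 1 = 1) (l : List (K × K)) :
    ∃ (m : ℕ) (W W' : Fin m → K), Dual φ W W' ∧
      ∀ p ∈ l, p.1 ∈ Submodule.span F (Set.range W) ∧
        p.2 ∈ Submodule.span F (Set.range W') := by
  induction l with
  | nil => exact ⟨0, Fin.elim0, Fin.elim0, fun j => j.elim0, by simp⟩
  | cons p l ih =>
    obtain ⟨m, W, W', hd, hl⟩ := ih
    obtain ⟨m1, W1, W1', hd1, h1, h1', hp1⟩ := hd.extend hφ p.1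
    obtain ⟨m2, W2', W2, hd2, h2', h2, hp2⟩ := hd1.symm.extend hφ p.2
    refine ⟨m2, W2, W2', hd2.symm, ?_⟩
    intro q hq
    rcases List.mem_cons.mp hq with rfl | hq
    · exact ⟨h2 hp1, hp2⟩
    · exact ⟨h2 (h1 (hl q hq).1), h2' (h1' (hl q hq).2)⟩

/-- The finite rank operator with matrix `A` with respect to the systems `w`, `w'`. -/
def Th (ψ : K →ₗ[F] F) {m : ℕ} (w w' : Fin m → K) (A : Matrix (Fin m) (Fin m) F) :
    Module.End F K := ∑ j, ∑ k, A j k • ro ψ (w j) (w' k)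

lemma Th_add (ψ : K →ₗ[F] F) {m : ℕ} (w w' : Fin m → K) (A B : Matrix (Fin m) (Fin m) F) :
    Th ψ w w' (A + B) = Th ψ w w' A + Th ψ w w' B := by
  simp only [Th, Matrix.add_apply, add_smul, Finset.sum_add_distrib]

lemma Th_sub (ψ : K →ₗ[F] F) {m : ℕ} (w w' : Fin m → K) (A B : Matrix (Fin m) (Fin m) F) :
    Th ψ w w' (A - B) = Th ψ w w' A - Th ψ w w' B := by
  rw [eq_sub_iff_add_eq, ← Th_add, sub_add_cancel]

lemma Th_zero (ψ : K →ₗ[F] F) {m : ℕ} (w w' : Fin m → K) :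
    Th ψ w w' 0 = 0 := by
  simp [Th]

lemma Th_apply (ψ : K →ₗ[F] F) {m : ℕ} (w w' : Fin m → K) (A : Matrix (Fin m) (Fin m) F)
    (f : K) : Th ψ w w' A f = ∑ j, (∑ k, A j k * ψ (w' k * f)) • w j := by
  simp only [Th, LinearMap.sum_apply, LinearMap.smul_apply, ro_apply, smul_smul,
    Finset.sum_smul]

lemma cv_Th {ψ : K →ₗ[F] F} {m : ℕ} {w w' : Fin m → K} (h : Dual ψ w w')
    (A : Matrix (Fin m) (Fin m) F) (i : Fin m) (f : K) :
    ψ (w' i * Th ψ w w' A f) = ∑ k, A i k * ψ (w' k * f) := by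
  rw [Th_apply, Finset.mul_sum, map_sum]
  simp only [mul_smul_comm, map_smul, h i, smul_eq_mul]
  simp

lemma Th_mul {ψ : K →ₗ[F] F} {m : ℕ} {w w' : Fin m → K} (h : Dual ψ w w')
    (A B : Matrix (Fin m) (Fin m) F) :
    Th ψ w w' (A * B) = Th ψ w w' A * Th ψ w w' B := by
  ext f
  rw [Module.End.mul_apply, Th_apply, Th_apply]
  refine Finset.sum_congr rfl fun j _ => ?_
  congr 1
  simp only [cv_Th h, Matrix.mul_apply, Finset.sum_mul, Finset.mul_sum, mul_assoc]
  rw [Finset.sum_comm]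

lemma Th_eq_T {m : ℕ} (w w' : Fin m → K) (A : Matrix (Fin m) (Fin m) F) :
    ∃ l : List (K × K), ∀ ψ : K →ₗ[F] F, Th ψ w w' A = T ψ l := by
  refine ⟨List.ofFn fun j => (w j, ∑ k, A j k • w' k), fun ψ => ?_⟩
  ext f
  simp only [Th, T, List.map_ofFn, List.sum_ofFn, LinearMap.sum_apply, LinearMap.smul_apply,
    ro_apply, Function.comp_apply, Finset.sum_mul, map_sum, smul_mul_assoc, map_smul,
    Finset.sum_smul, smul_smul, smul_eq_mul]

lemma T_eq_Th {m : ℕ} (w w' : Fin m → K) (l : List (K × K))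
    (hl : ∀ p ∈ l, p.1 ∈ Submodule.span F (Set.range w) ∧
        p.2 ∈ Submodule.span F (Set.range w')) :
    ∃ A : Matrix (Fin m) (Fin m) F, ∀ ψ : K →ₗ[F] F, T ψ l = Th ψ w w' A := by
  induction l with
  | nil => exact ⟨0, fun ψ => by simp [Th_zero]⟩
  | cons p l ih =>
    obtain ⟨A, hA⟩ := ih (fun q hq => hl q (List.mem_cons_of_mem _ hq))
    obtain ⟨h1, h2⟩ := hl p List.mem_cons_self
    obtain ⟨α, hα⟩ := (Submodule.mem_span_range_iff_exists_fun F).mp h1
    obtain ⟨β, hβ⟩ := (Submodule.mem_span_range_iff_exists_fun F).mp h2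
    refine ⟨Matrix.of (fun j k => α j * β k) + A, fun ψ => ?_⟩
    rw [T_cons, Th_add, hA ψ]
    congr 1
    ext f
    simp only [Th, LinearMap.sum_apply, LinearMap.smul_apply, ro_apply, Matrix.of_apply]
    rw [← hα, ← hβ, Finset.sum_mul, map_sum, Finset.sum_smul]
    simp only [smul_mul_assoc, map_smul, Finset.smul_sum, smul_smul, smul_eq_mul]
    rw [Finset.sum_comm]
    refine Finset.sum_congr rfl fun j _ => Finset.sum_congr rfl fun k _ => ?_
    congr 1; ring

end Pool.Agent.Q16.CII
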